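import Pool.Agent.V11168.MV.Main

/-!
# Subadditivity over orbifold bases for pairs with multivalued logarithmic 1-forms

Let `(X, Δ)` be a log canonical pair over `ℂ` (`Δ = 0` in Viehweg's question), `X` projective of dimension
`d + r`, with function field `K`, and `f : X → Y` a dominant rational map, `dim Y = d`, with `M ⊂ K` the
function field of `Y`. `Δ` is given by its multiplicities `δ v = max (0, -a (v, X, Δ)) ≤ 1` along all
prime divisors `v` over `X`, where `a (v, X, Δ)` is the discrepancy. The sections of `m (K_X + Δ)` are the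
`m`-fold pluricanonical forms on the function field with pole order at most `m δ v` at all `v`
(`PairSec`). In the same way `Δ_Y` is given by its multiplicities `δY u ≤ 1` along all prime divisors `u`
over `Y`. It is assumed that `f` is a morphism of orbifold pairs: if the prime divisor `v` over `X` lies
over `u`, with multiplicity `c`, then `1 - δ v ≤ c (1 - δY u)`. For `Δ = 0` this is `δY u ≤ 1 - 1 / c`: one
can take `Δ_Y = 0` or, on suitable models, the divisor `Δ_Y` which Campana defines by the multiple fibres.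
Nothing is assumed on `Y` except `κ (K_Y + Δ_Y) ≥ 0`.

A multivalued 1-form on `X` is a `K`-linear map `ω` from the rational vector fields to the algebraic
closure of `K`. It is logarithmic (`MultiLog`) if along each prime divisor `v` over `X` its values on the
vector fields which are regular along `v`, and tangent to `v` if `δ v = 1`, are integral over the local
ring of `v`. It is assumed that no rational vector field on `X` which is tangent to the fibres of `f` is
killed by all the given multivalued forms `ω i`.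
-/

set_option autoImplicit false

open FF IntermediateField Pool.Agent.W619.PQ Pool.Agent.W619.TW Pool.Agent.W619.Y
  Pool.Agent.Y173.QA Pool.Agent.Y174 Pool.Agent.V11168.Rel

namespace Pool.Agent.Results.MP_5c318e_ag.MultivaluedFormsOverBase

/-- **Theorem.** Let `(X, Δ)`, `f : X → Y`, `Δ_Y` and the multivalued logarithmic 1-forms `ω i` be as
above, `κ (K_Y + Δ_Y) ≥ 0`. Then `κ (K_X + Δ) ≥ κ (K_Y + Δ_Y)`. Moreover `X` has a finite Galois cover `Z`,
with function field `L`, and `r` rational 1-forms `θ i`, regular except for logarithmic poles over the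
prime divisors `v` with `δ v = 1`, which are linearly independent on the general fibre of `Z → Y`, such
that for the pair `(Z, Δ_Z)`, `Δ_Z` the effective part of the pull-back of `K_X + Δ` minus `K_Z`
(multiplicities `max (0, 1 - e (1 - δ v))`, `e` the ramification index; `Δ_Z = 0` if `Δ = 0`):
`κ (K_X + Δ) = κ (K_Z + Δ_Z)` and `ν (K_X + Δ) ≤ ν (K_Z + Δ_Z)`. (`PairKod`: `κ ≥ h`; `PairNum`:
`ν ≤ h`.) -/
theorem result {K : Type} [Field K] [Algebra ℂ K] [Algebra.EssFiniteType ℂ K]
    (M : IntermediateField ℂ K) [Algebra.EssFiniteType ℂ M] {d r s : ℕ}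
    (hM : Algebra.trdeg ℂ M = d) (hn : Algebra.trdeg ℂ K = (d + r : ℕ))
    -- the divisors
    {δ : Place ℂ K → ℝ} (hδ0 : ∀ v, 0 ≤ δ v) (hδ1 : ∀ v, δ v ≤ 1)
    {δY : Place ℂ M → ℝ} (hY : ∀ u, δY u ≤ 1)
    (hXY : ∀ v : Place ℂ K, IsDivisorial v (d + r) → ∀ (u : Place ℂ M) (c : ℕ), LiesOn v u c →
      1 - δ v ≤ c * (1 - δY u))
    (hκ : PairKod ℂ M d δY 0)
    -- the multivalued forms
    (ω : Fin s → Derivation ℂ K K →ₗ[K] AlgebraicClosure K)
    (hreg : ∀ i, MultiLog (d + r) (fun v => δ v = 1) (ω i))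
    (hker : ∀ D : Derivation ℂ K K, (∀ x ∈ M, D x = 0) → (∀ i, ω i D = 0) → D = 0) :
    (∀ h, PairKod ℂ M d δY h → PairKod ℂ K (d + r) δ h) ∧
    ∃ L : IntermediateField K (AlgebraicClosure K), FiniteDimensional K L ∧ IsGalois K L ∧
      (∃ θ : Fin r → (Derivation ℂ L L →ₗ[L] L),
        (∀ i, ∀ w : Place ℂ L, IsDivisorial w (d + r) → ∀ D : Derivation ℂ L L,
          LogFld (BdOn fun v : Place ℂ K => δ v = 1) w D → w.Reg (θ i D)) ∧
        ∀ c : Fin r → L, (∀ D : Derivation ℂ L L, (∀ x ∈ M, D (algebraMap K L x) = 0) →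
          ∑ i, c i * θ i D = 0) → c = 0) ∧
      ∀ δ' : Place ℂ L → ℝ, IsPull δ δ' →
        (∀ h, PairKod ℂ K (d + r) δ h ↔ PairKod ℂ L (d + r) δ' h) ∧
        ∀ h, PairNum ℂ L (d + r) δ' h → PairNum ℂ K (d + r) δ h := by
  have _ := hδ1
  obtain ⟨L, h1, h2, ⟨θ, h3, h4⟩, h5, h6⟩ := Pool.Agent.V11168.MV.mv_main
    (Ω := AlgebraicClosure K) ‹Algebra.EssFiniteType ℂ K› M ‹Algebra.EssFiniteType ℂ M› hM hn
    (fun v => δ v = 1) δ hδ0 (fun _ h => h) hY hXY hκ ω hreg hker
  exact ⟨h5, L, h1, h2, ⟨θ, h4, h3⟩, h6⟩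

end Pool.Agent.Results.MP_5c318e_ag.MultivaluedFormsOverBase
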